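import Pool.Agent.Lib.MP_d11fee_pr.Sym

/-!
# The sharp bound for k-th records over symmetric parents (all `k ≥ 2`, `n ≥ 1`)
-/

open Set MeasureTheory
open Pool.Agent.Lib.MP_d11fee_pr

namespace Pool.Agent.Results.MP_d11fee_pr.SymmetricRecords

/-- The set of all values of `(E R - μ)/σ` over symmetric parents. -/
def values (k n : ℕ) : Set ℝ :=
  {r | ∃ ν : Measure ℝ, SymParent ν ∧ r = (recMean k n ν - mean ν) / Real.sqrt (variance ν)}

/-- For `k ≥ 2`, `n ≥ 1` the sharp constant `D` is `0` if `F(1/2) ≥ 1/2`; otherwise there is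
exactly one `β ∈ (1/2,1)` with `s(β) > 0` and `(1-β) s(β) = 1 - F(β) - F(1-β)`, and
`2 D² = ∫_{1/2}^β s² + (1-β) s(β)²`, with the integral in closed form in terms of the
distribution function of `(2k-1)`-th records. -/
theorem result (k n : ℕ) (hk : 2 ≤ k) (hn : 1 ≤ n) :
    (1 / 2 ≤ F k n (1 / 2) → IsLUB (values k n) 0) ∧
    (F k n (1 / 2) < 1 / 2 →
      ∃ β D : ℝ,
        (1 / 2 < β ∧ β < 1 ∧ 0 < s k n β ∧ (1 - β) * s k n β = 1 - F k n β - F k n (1 - β)) ∧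
        (∀ β' : ℝ, 1 / 2 < β' ∧ β' < 1 ∧ 0 < s k n β' ∧
          (1 - β') * s k n β' = 1 - F k n β' - F k n (1 - β') → β' = β) ∧
        IsLUB (values k n) D ∧ 0 < D ∧
        2 * D ^ 2 = (∫ x in (1 / 2 : ℝ)..β, s k n x ^ 2) + (1 - β) * s k n β ^ 2 ∧
        (∫ x in (1 / 2 : ℝ)..β, s k n x ^ 2) =
          (k : ℝ) * ((2 * n).choose n) * ((k : ℝ) / (2 * k - 1)) ^ (2 * n + 1) *
            (F (2 * k - 1) (2 * n) β - F (2 * k - 1) (2 * n) (1 - β)) -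
          2 * ∫ x in (1 / 2 : ℝ)..β, f k n x * f k n (1 - x)) := by
  refine ⟨fun h => symSet_isLUB_zero hk hn h, fun h => ?_⟩
  obtain ⟨β, hβ⟩ := exists_breakSym hk hn h
  have h1 := hβ.1
  have hpos : 0 < (∫ x in (1 / 2 : ℝ)..β, s k n x ^ 2) + (1 - β) * s k n β ^ 2 := by
    have a1 : 0 ≤ ∫ x in (1/2:ℝ)..β, s k n x ^ 2 :=
      intervalIntegral.integral_nonneg h1.1.le (fun x _ => sq_nonneg _)
    have a2 : 0 < (1 - β) * s k n β ^ 2 := by
      have := hβ.2.1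
      have : 0 < 1 - β := by linarith [h1.2]
      positivity
    linarith
  refine ⟨β, Real.sqrt (((∫ x in (1/2:ℝ)..β, s k n x ^ 2) + (1 - β) * s k n β ^ 2) / 2),
    ⟨h1.1, h1.2, hβ.2.1, hβ.2.2⟩, ?_, symSet_isLUB hk hn hβ, Real.sqrt_pos.2 (by positivity), ?_,
    integral_s_sq hk h1⟩
  · rintro β' ⟨a, b, c, d⟩
    exact breakSym_unique hk hn ⟨⟨a, b⟩, c, d⟩ hβ
  · rw [Real.sq_sqrt (by positivity)]; ring

end Pool.Agent.Results.MP_d11fee_pr.SymmetricRecords
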