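import Pool.Agent.Lib.MP_d11fee_pr.Uni4

/-!
# The sharp bound for k-th records over symmetric unimodal parents (all `k ≥ 1`, `n ≥ 1`)
-/

open Set MeasureTheory
open Pool.Agent.Lib.MP_d11fee_pr

namespace Pool.Agent.Results.MP_d11fee_pr.UnimodalRecords

/-- The set of all values of `(E R - μ)/σ` over symmetric unimodal parents. -/
def values (k n : ℕ) : Set ℝ :=
  {r | ∃ ν : Measure ℝ, UniParent ν ∧ r = (recMean k n ν - mean ν) / Real.sqrt (variance ν)}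

/-- The sharp constants over symmetric unimodal parents. For `k = 1` the constant is attained and
`2 D² = C(2n,n) - (1/n!²) ∫₀¹ (ln x)ⁿ (ln(1-x))ⁿ dx`. For `k ≥ 2`, with `A = (k/(k+1))^(n+1)`:
it is `0` if `A ≥ 1/2`; it is attained and equals `√3 (1 - 2A)` if `A < 1/2` and
`4 F(1/2) ≤ 6A - 1`; otherwise, with `β` the smallest root in `(1/2,1)` of the explicit function
`KK k n`, `S = 1 - F(β) - F(1-β)` and `t = (1-β) s(β)`, it is attained and
`2 D² = ∫_{1/2}^β s² + (4S² - 2St + t²)/(3(1-β))`. -/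
theorem result :
    (∀ n : ℕ, 1 ≤ n → ∃ D : ℝ, IsGreatest (values 1 n) D ∧ 0 ≤ D ∧
      2 * D ^ 2 = ((2 * n).choose n : ℝ) -
        (1 / (n.factorial : ℝ) ^ 2) * ∫ x in (0:ℝ)..1, (Real.log x) ^ n * (Real.log (1 - x)) ^ n) ∧
    (∀ k n : ℕ, 2 ≤ k → 1 ≤ n →
      (1 / 2 ≤ ((k:ℝ) / (k + 1)) ^ (n + 1) → IsLUB (values k n) 0) ∧
      (((k:ℝ) / (k + 1)) ^ (n + 1) < 1 / 2 →
        4 * F k n (1 / 2) ≤ 6 * ((k:ℝ) / (k + 1)) ^ (n + 1) - 1 →
        IsGreatest (values k n) (Real.sqrt 3 * (1 - 2 * ((k:ℝ) / (k + 1)) ^ (n + 1)))) ∧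
      (((k:ℝ) / (k + 1)) ^ (n + 1) < 1 / 2 →
        6 * ((k:ℝ) / (k + 1)) ^ (n + 1) - 1 < 4 * F k n (1 / 2) →
        ∃ β D : ℝ, 1 / 2 < β ∧ β < 1 ∧ KK k n β = 0 ∧
          (∀ x : ℝ, 1 / 2 < x → x < β → KK k n x ≠ 0) ∧
          IsGreatest (values k n) D ∧ 0 ≤ D ∧
          2 * D ^ 2 = (∫ x in (1 / 2 : ℝ)..β, s k n x ^ 2) +
            (4 * (1 - F k n β - F k n (1 - β)) ^ 2 -
              2 * (1 - F k n β - F k n (1 - β)) * ((1 - β) * s k n β) +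
              ((1 - β) * s k n β) ^ 2) / (3 * (1 - β)))) := by
  refine ⟨fun n hn => ?_, fun k n hk hn => ⟨fun h => uniSet_case_a hk hn h,
    fun h1 h2 => uniSet_case_b hk hn h1 (by rw [KK_half]; linarith), fun h1 h2 => ?_⟩⟩
  · refine ⟨_, uniSet_one hn, Real.sqrt_nonneg _, ?_⟩
    rw [← integral_s_sq_one n, Real.sq_sqrt]
    · ring
    · have : 0 ≤ ∫ x in Ioo (1/2:ℝ) 1, s 1 n x ^ 2 := integral_nonneg (fun x => sq_nonneg _)
      positivity
  · obtain ⟨β, hβ, hβ1, hK, hbef, -, -, hG⟩ := uniSet_case_c hk hn h1 (by rw [KK_half]; linarith)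
    refine ⟨β, _, hβ, hβ1, hK, fun x hx hxβ => (hbef x hx hxβ).ne, hG, Real.sqrt_nonneg _, ?_⟩
    rw [Real.sq_sqrt]
    · ring
    · have a1 : 0 ≤ ∫ x in (1/2:ℝ)..β, s k n x ^ 2 :=
        intervalIntegral.integral_nonneg hβ.le (fun x _ => sq_nonneg _)
      have a2 : 0 < 3 * (1 - β) := by linarith
      have a3 : 0 ≤ 4 * (1 - F k n β - F k n (1 - β)) ^ 2 -
          2 * (1 - F k n β - F k n (1 - β)) * ((1 - β) * s k n β) + ((1 - β) * s k n β) ^ 2 := by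
        nlinarith [sq_nonneg ((1 - F k n β - F k n (1 - β)) - (1 - β) * s k n β),
          sq_nonneg (1 - F k n β - F k n (1 - β))]
      positivity

end Pool.Agent.Results.MP_d11fee_pr.UnimodalRecords
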